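import Pool.Agent.Helper65.LT.Pc

/-!
PROJECT LT (MP_274814), block F4-F6 (periods), piece P15a.
-/

namespace Pool.Agent.Helper8.LT

open Pool.Agent.Helper34.LT Pool.Agent.Helper65.LT Finset Complex Filter Topology

noncomputable section

theorem P15a_ar (q a k l : ℕ) : (k * a) % q + (l * a) % q =
    ((k + l) % q * a) % q + q * (((k * a) % q + (l * a) % q) / q) := by
  have h1 : ((k + l) % q * a) % q = ((k * a) % q + (l * a) % q) % q := by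
    rw [Nat.mod_mul_mod, Nat.add_mul, Nat.add_mod]
  rw [h1, Nat.mod_add_div]

theorem P15a_al (q a k l : ℕ) (hq : q ≠ 0) : (al q a k : ℂ) + (al q a l : ℂ) =
    (al q a ((k + l) % q) : ℂ) + ((((k * a) % q + (l * a) % q) / q : ℕ) : ℂ) := by
  have hq0 : (q : ℝ) ≠ 0 := Nat.cast_ne_zero.2 hq
  have h1 : al q a k + al q a l =
      al q a ((k + l) % q) + ((((k * a) % q + (l * a) % q) / q : ℕ) : ℝ) := by
    have h2 := congrArg (Nat.cast : ℕ → ℝ) (P15a_ar q a k l)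
    rw [Nat.cast_add, Nat.cast_add, Nat.cast_mul] at h2
    unfold al
    rw [← add_div, h2, add_div, mul_div_cancel_left₀ _ hq0]
  exact_mod_cast congrArg (fun t : ℝ => (t : ℂ)) h1

theorem w0_mul' {q a b : ℕ} (hq : q ≠ 0) (k l : ℕ) : ∃ E : ℂ → ℂ, Differentiable ℂ E ∧
      ∀ s : ℂ, s ≠ 0 → ‖s‖ < 1 →
        w0 q a b k s * w0 q a b l s = E (s ^ (-(q : ℤ))) * w0 q a b ((k + l) % q) s := by
  obtain ⟨e, he⟩ : ∃ e : ℕ, e = ((k * a) % q + (l * a) % q) / q := ⟨_, rfl⟩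
  obtain ⟨f, hf⟩ : ∃ f : ℕ, f = ((k * b) % q + (l * b) % q) / q := ⟨_, rfl⟩
  refine ⟨fun x => x ^ e * (x - 1) ^ f, by fun_prop, fun s hs hs1 => ?_⟩
  have h1 : 1 - s ^ q ≠ 0 := by
    intro h
    have h2 : ‖s ^ q‖ < 1 := by
      rw [norm_pow]
      exact pow_lt_one₀ (norm_nonneg s) hs1 hq
    rw [← sub_eq_zero.1 h, norm_one] at h2
    exact lt_irrefl _ h2
  have hN : (Nk q a b k : ℤ) + Nk q a b l = Nk q a b ((k + l) % q) + q * (e + f) := by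
    have h2 := P15a_ar q a k l
    have h3 := P15a_ar q b k l
    rw [← he] at h2
    rw [← hf] at h3
    have h4 : Nk q a b k + Nk q a b l = Nk q a b ((k + l) % q) + q * (e + f) := by
      unfold Nk
      rw [mul_add]
      omega
    exact_mod_cast h4
  have h2 : (1 - s ^ q) ^ (al q b k : ℂ) * (1 - s ^ q) ^ (al q b l : ℂ) =
      (1 - s ^ q) ^ (al q b ((k + l) % q) : ℂ) * (1 - s ^ q) ^ f := by
    rw [← cpow_add _ _ h1, P15a_al q b k l hq, cpow_add _ _ h1, cpow_natCast, hf]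
  have h3 : s ^ (-(Nk q a b k : ℤ)) * s ^ (-(Nk q a b l : ℤ)) =
      s ^ (-(Nk q a b ((k + l) % q) : ℤ)) * ((s ^ (-(q : ℤ))) ^ e * (s ^ (-(q : ℤ))) ^ f) := by
    rw [← zpow_add₀ hs, ← pow_add, ← zpow_natCast, ← zpow_mul, ← zpow_add₀ hs]
    congr 1
    push_cast
    linear_combination -hN
  have h4 : (s ^ (-(q : ℤ))) ^ f * (1 - s ^ q) ^ f = (s ^ (-(q : ℤ)) - 1) ^ f := by
    rw [← mul_pow]
    congr 1
    rw [zpow_neg, zpow_natCast, mul_sub, mul_one, inv_mul_cancel₀ (pow_ne_zero q hs)]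
  change s ^ (-(Nk q a b k : ℤ)) * (1 - s ^ q) ^ (al q b k : ℂ) *
    (s ^ (-(Nk q a b l : ℤ)) * (1 - s ^ q) ^ (al q b l : ℂ)) =
    (s ^ (-(q : ℤ))) ^ e * (s ^ (-(q : ℤ)) - 1) ^ f *
      (s ^ (-(Nk q a b ((k + l) % q) : ℤ)) * (1 - s ^ q) ^ (al q b ((k + l) % q) : ℂ))
  rw [← h4]
  calc _ = (s ^ (-(Nk q a b k : ℤ)) * s ^ (-(Nk q a b l : ℤ))) *
        ((1 - s ^ q) ^ (al q b k : ℂ) * (1 - s ^ q) ^ (al q b l : ℂ)) := by ring
    _ = _ := by
      rw [h2, h3]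
      ring

end

end Pool.Agent.Helper8.LT
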